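import Pool.Agent.Helper20.EQ.St3

/-!
# Project EQ (MP_cb927e_an), module GDL: the levels of a function
-/

set_option autoImplicit false

open MeasureTheory Set Filter Topology
open scoped ENNReal RealInnerProductSpace

namespace Pool.Agent.Helper15.EQ

open Pool.Agent.Helper20.RG Pool.Agent.Helper20.EQ
open Pool.Agent.Helper68.LM (Pl BB Bd Av HL ft fm DQ)

theorem lev_zero_GDL (f : Pl → ℝ) (j : ℤ) (x : Pl)
    (h : ¬ ((2 : ℝ) ^ j ≤ f x ∧ f x < (2 : ℝ) ^ (j + 1))) : lev f j x = 0 := by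
  rw [lev, if_neg h]

theorem lev_pos_GDL (f : Pl → ℝ) (j : ℤ) (x : Pl)
    (h : (2 : ℝ) ^ j ≤ f x ∧ f x < (2 : ℝ) ^ (j + 1)) : lev f j x = f x / (2 : ℝ) ^ (j + 1) := by
  rw [lev, if_pos h]

theorem lev_bd_GDL (f : Pl → ℝ) (j : ℤ) (x : Pl) : 0 ≤ lev f j x ∧ lev f j x ≤ 1 := by
  have h2 : (0 : ℝ) < (2 : ℝ) ^ (j + 1) := by positivity
  by_cases h : (2 : ℝ) ^ j ≤ f x ∧ f x < (2 : ℝ) ^ (j + 1)
  · rw [lev_pos_GDL f j x h]
    have h1 : (0 : ℝ) < (2 : ℝ) ^ j := by positivity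
    constructor
    · apply div_nonneg _ h2.le
      linarith [h.1]
    · rw [div_le_one h2]
      exact h.2.le
  · rw [lev_zero_GDL f j x h]
    exact ⟨le_rfl, zero_le_one⟩

/-- `lev f j ≤ 4^(-j) f²`. -/
theorem lev_sq_GDL (f : Pl → ℝ) (j : ℤ) (x : Pl) : lev f j x ≤ (4 : ℝ) ^ (-j) * f x ^ 2 := by
  by_cases h : (2 : ℝ) ^ j ≤ f x ∧ f x < (2 : ℝ) ^ (j + 1)
  · rw [lev_pos_GDL f j x h]
    have h1 : (0 : ℝ) < (2 : ℝ) ^ j := by positivity
    have e1 : (2 : ℝ) ^ (j + 1) = 2 * (2 : ℝ) ^ j := by rw [zpow_add_one₀ (by norm_num)]; ring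
    have e2 : (4 : ℝ) ^ (-j) = 1 / ((2 : ℝ) ^ j) ^ 2 := by
      rw [zpow_neg, show (4 : ℝ) = 2 ^ (2 : ℤ) by norm_num, ← zpow_mul, mul_comm, zpow_mul]
      rw [one_div]
      norm_cast
    rw [e1, e2]
    have hf := h.1
    generalize hz : (2 : ℝ) ^ j = z at *
    have hf0 : 0 < f x := by linarith
    rw [one_div, ← div_eq_inv_mul, div_le_div_iff₀ (by positivity) (by positivity)]
    nlinarith [mul_pos h1 hf0]
  · rw [lev_zero_GDL f j x h]
    positivity

theorem lev_meas_GDL (f : Pl → ℝ) (j : ℤ) (hf : Measurable f) : Measurable (lev f j) := by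
  unfold lev
  apply Measurable.ite _ (hf.div_const _) measurable_const
  exact (measurableSet_le measurable_const hf).inter (measurableSet_lt hf measurable_const)

/-- Module GDL. -/
theorem hGDL (hGD : StGD) : StGDL := by
  refine ⟨?_, ?_, ?_⟩
  · intro f j hf hf0
    refine ⟨⟨lev_meas_GDL f j hf.1, ?_⟩, lev_bd_GDL f j⟩
    obtain ⟨K, hK, hs⟩ := hf.2
    refine ⟨max K 1, ?_, ?_⟩
    · intro x
      have h := lev_bd_GDL f j x
      rw [abs_of_nonneg h.1]
      exact h.2.trans (le_max_right _ _)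
    · intro x hx
      have h0 : f x = 0 := hs x (lt_of_le_of_lt (le_max_left _ _) hx)
      apply lev_zero_GDL
      rintro ⟨h1, -⟩
      rw [h0] at h1
      have h2 : (0 : ℝ) < (2 : ℝ) ^ j := by positivity
      linarith
  · intro Cf R₀ f l j x hCf hR hf hf0 hgd k
    have hBB : BB (fun y => f y ^ 2) := by
      refine ⟨hf.1.pow_const 2, ?_⟩
      obtain ⟨K, hK, hs⟩ := hf.2
      refine ⟨max K (K ^ 2), ?_, ?_⟩
      · intro y
        rw [abs_pow]
        exact (pow_le_pow_left₀ (abs_nonneg _) (hK y) 2).trans (le_max_right _ _)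
      · intro y hy
        have h0 : f y = 0 := hs y (lt_of_le_of_lt (le_max_left _ _) hy)
        simp [h0]
    have hloc := hGD Cf R₀ ((4 : ℝ) ^ l) (fun y => f y ^ 2) x hCf hR (by positivity) hBB hgd k
    calc ∫⁻ y in Sq x (Cf * (2 : ℝ) ^ k), ‖lev f j y‖ₑ
        ≤ ∫⁻ y in Sq x (Cf * (2 : ℝ) ^ k), ENNReal.ofReal ((4 : ℝ) ^ (-j)) * ‖f y ^ 2‖ₑ := by
          apply lintegral_mono
          intro y
          dsimp only
          rw [Real.enorm_of_nonneg (lev_bd_GDL f j y).1, Real.enorm_of_nonneg (sq_nonneg _),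
            ← ENNReal.ofReal_mul (by positivity)]
          exact ENNReal.ofReal_le_ofReal (lev_sq_GDL f j y)
      _ = ENNReal.ofReal ((4 : ℝ) ^ (-j)) * ∫⁻ y in Sq x (Cf * (2 : ℝ) ^ k), ‖f y ^ 2‖ₑ := by
          rw [lintegral_const_mul' _ _ ENNReal.ofReal_ne_top]
      _ ≤ ENNReal.ofReal ((4 : ℝ) ^ (-j)) * ENNReal.ofReal ((4 : ℝ) ^ l * (4 : ℝ) ^ k) := by
          gcongr
      _ = ENNReal.ofReal ((4 : ℝ) ^ (l - j) * (4 : ℝ) ^ k) := by
          rw [← ENNReal.ofReal_mul (by positivity)]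
          congr 1
          rw [sub_eq_add_neg, zpow_add₀ (by norm_num : (4 : ℝ) ≠ 0)]
          ring
  · intro p f hp hf hf0
    have hm : ∀ j : ℤ, Measurable fun x => ENNReal.ofReal ((2 : ℝ) ^ (p * j)) * ‖lev f j x‖ₑ ^ 2 :=
      fun j => ((lev_meas_GDL f j hf.1).enorm.pow_const 2).const_mul _
    have h1 : ∑' j : ℤ, ENNReal.ofReal ((2 : ℝ) ^ (p * j)) * ∫⁻ x, ‖lev f j x‖ₑ ^ 2 =
        ∫⁻ x, ∑' j : ℤ, ENNReal.ofReal ((2 : ℝ) ^ (p * j)) * ‖lev f j x‖ₑ ^ 2 := by
      rw [lintegral_tsum (fun j => (hm j).aemeasurable)]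
      congr 1
      funext j
      rw [lintegral_const_mul' _ _ ENNReal.ofReal_ne_top]
    rw [h1]
    apply lintegral_mono
    intro x
    dsimp only
    by_cases hx : f x = 0
    · have hz : ∀ j : ℤ, ENNReal.ofReal ((2 : ℝ) ^ (p * j)) * ‖lev f j x‖ₑ ^ 2 = 0 := by
        intro j
        have h0 : lev f j x = 0 := by
          apply lev_zero_GDL
          rintro ⟨h1, -⟩
          rw [hx] at h1
          have h2 : (0 : ℝ) < (2 : ℝ) ^ j := by positivity
          linarith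
        simp [h0]
      simp [hz]
    · have hx0 : 0 < f x := lt_of_le_of_ne (hf0 x) (Ne.symm hx)
      obtain ⟨j₀, hj1, hj2⟩ := exists_mem_Ico_zpow hx0 (by norm_num : (1 : ℝ) < 2)
      rw [tsum_eq_single j₀]
      · calc ENNReal.ofReal ((2 : ℝ) ^ (p * j₀)) * ‖lev f j₀ x‖ₑ ^ 2
            ≤ ENNReal.ofReal ((2 : ℝ) ^ (p * j₀)) * 1 := by
              gcongr
              rw [Real.enorm_of_nonneg (lev_bd_GDL f j₀ x).1]
              apply pow_le_one₀ zero_le
              rw [← ENNReal.ofReal_one]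
              exact ENNReal.ofReal_le_ofReal (lev_bd_GDL f j₀ x).2
          _ = ENNReal.ofReal ((2 : ℝ) ^ (j₀ : ℤ)) ^ p := by
              rw [mul_one, ENNReal.ofReal_rpow_of_pos (by positivity), ← Real.rpow_intCast,
                ← Real.rpow_mul (by norm_num)]
              congr 2
              ring
          _ ≤ ENNReal.ofReal (f x) ^ p := by
              apply ENNReal.rpow_le_rpow _ hp.le
              exact ENNReal.ofReal_le_ofReal hj1
      · intro j hj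
        have h0 : lev f j x = 0 := by
          apply lev_zero_GDL
          rintro ⟨h1, h2⟩
          apply hj
          have a1 : (2 : ℝ) ^ j < (2 : ℝ) ^ (j₀ + 1) := lt_of_le_of_lt h1 hj2
          have a2 : (2 : ℝ) ^ j₀ < (2 : ℝ) ^ (j + 1) := lt_of_le_of_lt hj1 h2
          rw [zpow_lt_zpow_iff_right₀ (by norm_num)] at a1 a2
          omega
        simp [h0]

end Pool.Agent.Helper15.EQ
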